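import Pool.Agent.K.MP_0c87c4_co.C0

namespace Pool.Agent.Results.MP_0c87c4_co.Asymptotic

open Pool.Agent.P.MP_0c87c4_co.Asym

/-- For every `ε > 0` and all large `d`: in every finite loopless `d`-regular digraph with a proper
edge colouring in `d` colours, every vertex is the start of a rainbow directed path with at least
`(1 - ε) d` edges. -/
theorem result (ε : ℝ) (hε : 0 < ε) : ∃ d₀ : ℕ, ∀ d : ℕ, d₀ ≤ d →
    ∀ (V : Type) [Fintype V] (adj : V → V → Prop) (c : V → V → Fin d),
      (∀ v, ¬ adj v v) →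
      (∀ v, {w | adj v w}.ncard = d) →
      (∀ v, {w | adj w v}.ncard = d) →
      (∀ u v w, adj u v → adj u w → c u v = c u w → v = w) →
      (∀ u v w, adj v u → adj w u → c v u = c w u → v = w) →
      ∀ x : V, ∃ (l : ℕ) (p : Fin (l + 1) → V), p 0 = x ∧ Function.Injective p ∧
        (∀ i : Fin l, adj (p i.castSucc) (p i.succ)) ∧
        Function.Injective (fun i : Fin l => c (p i.castSucc) (p i.succ)) ∧
        (1 - ε) * d ≤ l := by
  classical
  obtain ⟨E, hE⟩ := exists_nat_gt (1 / ε)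
  have hE0 : (0 : ℝ) < E := lt_trans (by positivity) hE
  obtain ⟨d₀, hd₀⟩ := main E (by exact_mod_cast hE0)
  refine ⟨d₀, fun d hd V _ adj c _ hdo _ hout hin x => ?_⟩
  have hex : ∀ (k : Fin d) (v : V), ∃ w, adj v w ∧ c v w = k := by
    intro k v
    have hinj : Set.InjOn (c v) {w | adj v w} := fun w hw w' hw' h => hout v w w' hw hw' h
    have hcard : (c v '' {w | adj v w}).ncard = (Set.univ : Set (Fin d)).ncard := by
      rw [hinj.ncard_image, hdo v, Set.ncard_univ]
      simp
    have huniv := Set.eq_of_subset_of_ncard_le (Set.subset_univ _) hcard.ge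
    have hk : k ∈ c v '' {w | adj v w} := huniv ▸ Set.mem_univ k
    obtain ⟨w, hw, hwk⟩ := hk
    exact ⟨w, hw, hwk⟩
  choose f hf1 hf2 using hex
  have hfinj : ∀ k, Function.Injective (f k) := by
    intro k v v' h
    refine hin (f k v) v v' (hf1 k v) (h ▸ hf1 k v') ?_
    rw [hf2 k v, h, hf2 k v']
  let π : Fin d → Equiv.Perm V := fun k =>
    Equiv.ofBijective (f k) (Finite.injective_iff_bijective.1 (hfinj k))
  have hπ : ∀ k v, π k v = f k v := fun _ _ => rfl
  have hL : ∀ v, Function.Injective fun k => π k v := by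
    intro v k k' h
    simp only [hπ] at h
    rw [← hf2 k v, h, hf2 k' v]
  obtain ⟨cs, hcs, hlen⟩ := hd₀ V (Fin d) π hL (by simpa using hd) x
  have hstep : ∀ i : Fin cs.length,
      (x :: tl π x cs)[(i.succ : ℕ)]'(by simp) =
        f cs[(i : ℕ)] ((x :: tl π x cs)[(i.castSucc : ℕ)]'(by simp)) :=
    fun i => getElem_cons_tl π x cs i i.2
  refine ⟨cs.length, fun i => (x :: tl π x cs)[(i : ℕ)]'(by simpa using i.2), by simp, ?_, ?_, ?_,
    ?_⟩
  · intro i j h
    exact Fin.ext ((List.nodup_cons.2 ⟨hcs.hx, hcs.vn⟩).getElem_inj_iff.1 h)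
  · intro i
    simp only
    rw [hstep i]
    exact hf1 _ _
  · intro i j h
    simp only at h
    rw [hstep i, hstep j, hf2, hf2] at h
    exact Fin.ext (hcs.cn.getElem_inj_iff.1 h)
  · rw [Fintype.card_fin] at hlen
    have h1 : (E : ℝ) * d ≤ E * cs.length + d := by exact_mod_cast hlen
    have h2 : 1 < ε * E := by rwa [div_lt_iff₀ hε, mul_comm] at hE
    have h3 : (0 : ℝ) ≤ d := Nat.cast_nonneg d
    have h4 : (E : ℝ) * ((1 - ε) * d) ≤ E * cs.length := by nlinarith
    exact le_of_mul_le_mul_left h4 hE0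

end Pool.Agent.Results.MP_0c87c4_co.Asymptotic
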