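import Pool.Agent.K.MP_0c87c4_co.C1

namespace Pool.Agent.Results.MP_0c87c4_co.TwoThirds

open Pool.Agent.P.MP_0c87c4_co

/-- Every nonempty finite loopless digraph with all out-degrees and in-degrees at least `d`
and a proper edge colouring (with any set of colours) has a rainbow directed path whose
length `l` satisfies `2 d ≤ 3 l + 6`. -/
theorem result (V C : Type) [Fintype V] [Nonempty V] (d : ℕ)
    (adj : V → V → Prop) (c : V → V → C)
    (hirr : ∀ v, ¬ adj v v)
    (hout : ∀ u v w, adj u v → adj u w → c u v = c u w → v = w)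
    (hin : ∀ u v w, adj v u → adj w u → c v u = c w u → v = w)
    (hdo : ∀ v, d ≤ {w | adj v w}.ncard)
    (hdi : ∀ v, d ≤ {w | adj w v}.ncard) :
    ∃ (l : ℕ) (p : Fin (l + 1) → V), Function.Injective p ∧
      (∀ i : Fin l, adj (p i.castSucc) (p i.succ)) ∧
      Function.Injective (fun i : Fin l => c (p i.castSucc) (p i.succ)) ∧
      2 * d ≤ 3 * l + 6 := by
  classical
  obtain ⟨l, p, hp, hl⟩ := exists_long (adj := adj) (c := c) (d := d) hirr hout hin
    (fun v => by
      have := hdo v
      rwa [← Set.ncard_coe_finset, Finset.coe_filter_univ] )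
    (fun v => by
      have := hdi v
      rwa [← Set.ncard_coe_finset, Finset.coe_filter_univ])
  refine ⟨l, fun i => p i, fun i j e => ?_, fun i => ?_, fun i j e => ?_, hl⟩
  · exact Fin.ext (hp.inj i (Nat.lt_succ_iff.mp i.2) j (Nat.lt_succ_iff.mp j.2) e)
  · simpa using hp.edge i i.2
  · exact Fin.ext (hp.col i i.2 j j.2 (by simpa using e))

end Pool.Agent.Results.MP_0c87c4_co.TwoThirds
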